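import Pool.Agent.T2H06.TW.Main

set_option autoImplicit false

/-!
# Numbers which have several weights: the field of ratios, and the growth in terms of the dimensions
-/

open Module

namespace Pool.Agent.T2H06.TW

open Pool.Agent.H447R2.MZ hiding Direct Zs_one pi_pow_mem
open Pool.Agent.Y129.MZ Pool.Agent.Y123.MZ Pool.Agent.T2H35.MZ

theorem diff_iff_ratio (d : ℕ) : Diff d ↔ (z3 / Real.pi ^ 2) ^ d ∈ ratioField := by
  have hpi : Real.pi ^ 2 ≠ 0 := pow_ne_zero _ Real.pi_ne_zero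
  have h3 : z3 ≠ 0 := z3_pos.ne'
  constructor
  · rintro ⟨W, x, h1, h2, h0⟩
    have e : (z3 / Real.pi ^ 2) ^ d = (x * z3 ^ d) / (x * (Real.pi ^ 2) ^ d) := by
      rw [div_pow, mul_div_mul_left _ _ h0]
    rw [e]
    refine div_mem_ratio (w := W + 3 * d) (mul_mem _ _ _ _ h1 (pow_mem 3 _ z3_mem d)) ?_
    have h4 := mul_mem _ _ _ _ h2 (pow_mem 2 _ pi_sq_mem d)
    rwa [show W + d + 2 * d = W + 3 * d by omega] at h4
  · intro h
    have h1 := ratio_le h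
    obtain ⟨w, x, hx, y, hy, hy0, e⟩ := h1
    refine ⟨w + 2 * d, x * (Real.pi ^ 2) ^ d, mul_mem _ _ _ _ hx (pow_mem 2 _ pi_sq_mem d), ?_, ?_⟩
    · have e2 : x * (Real.pi ^ 2) ^ d = y * z3 ^ d := by
        rw [div_pow] at e
        field_simp at e
        linarith
      rw [e2]
      have h4 := mul_mem _ _ _ _ hy (pow_mem 3 _ z3_mem d)
      rwa [show w + 3 * d = w + 2 * d + d by omega] at h4
    · refine mul_ne_zero ?_ (pow_ne_zero _ hpi)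
      rintro rfl
      rw [zero_div] at e
      exact pow_ne_zero d (div_ne_zero h3 hpi) e

theorem zero_one_law' (F : Finset ℕ) : (∀ W, Rel F W = ⊥) ∨
    ∃ (W₀ : ℕ) (c : ℝ), 0 < c ∧ ∀ W : ℕ, W₀ ≤ W → D (W - W₀) ≤ finrank ℚ (Rel F W) ∧
      c * W ≤ finrank ℚ (Rel F W) := by
  by_cases h : ∀ W, Rel F W = ⊥
  · exact Or.inl h
  right
  rcases zero_one_law F with h' | ⟨c, hc, W₂, h2⟩
  · exact absurd h' h
  push Not at h
  obtain ⟨W₁, h⟩ := h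
  obtain ⟨z, hz, h0⟩ := (Submodule.ne_bot_iff _).1 h
  refine ⟨W₁ + W₂ + 2, c, hc, fun W hW => ⟨?_, h2 W (by omega)⟩⟩
  refine le_trans ?_ (rel_ge hz h0 (show W₁ ≤ W by omega))
  have h3 := D_mono (n := W - (W₁ + W₂ + 2)) (m := W₂ + 2) (by omega)
  rwa [show W - (W₁ + W₂ + 2) + (W₂ + 2) = W - W₁ by omega] at h3

theorem many_growth' {g : ℕ} (hg1 : 1 ≤ g) (hg : Diff g) (L : ℕ) :
    ∃ (W₀ : ℕ) (c : ℝ), 0 < c ∧ ∀ W : ℕ, W₀ ≤ W → D (W - W₀) ≤ finrank ℚ (Many g L W) ∧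
      c * W ≤ finrank ℚ (Many g L W) := by
  obtain ⟨c, hc, W₂, h2⟩ := many_growth hg1 hg L
  obtain ⟨W₁, x, hx, h0⟩ := exists_many hg L
  refine ⟨W₁ + W₂ + 2, c, hc, fun W hW => ⟨?_, h2 W (by omega)⟩⟩
  refine le_trans ?_ (many_ge hx h0 (show W₁ ≤ W by omega))
  have h3 := D_mono (n := W - (W₁ + W₂ + 2)) (m := W₂ + 2) (by omega)
  rwa [show W - (W₁ + W₂ + 2) + (W₂ + 2) = W - W₁ by omega] at h3

end Pool.Agent.T2H06.TW
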