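import Pool.Agent.T2H35.MZ.NonDir

set_option autoImplicit false

/-!
# Numbers which have several weights, and relations along finite sets of weights
-/

open Module

namespace Pool.Agent.T2H06.TW

open Pool.Agent.H447R2.MZ hiding Direct Zs_one pi_pow_mem
open Pool.Agent.Y129.MZ Pool.Agent.Y123.MZ Pool.Agent.T2H35.MZ

/-- the relations `∑ z_f = 0` along the weights `W + f`, `f` in `F` -/
def Rel (F : Finset ℕ) (W : ℕ) : Submodule ℚ (ℕ → ℝ) where
  carrier := {z | (∀ f ∈ F, z f ∈ Zs (W + f)) ∧ (∀ f, f ∉ F → z f = 0) ∧ ∑ f ∈ F, z f = 0}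
  add_mem' := by
    rintro a b ⟨ha, ha', ha''⟩ ⟨hb, hb', hb''⟩
    refine ⟨fun f hf => (Zs _).add_mem (ha f hf) (hb f hf), fun f hf => ?_, ?_⟩
    · rw [Pi.add_apply, ha' f hf, hb' f hf, add_zero]
    · simp only [Pi.add_apply, Finset.sum_add_distrib, ha'', hb'', add_zero]
  zero_mem' := ⟨fun f _ => (Zs _).zero_mem, fun f _ => rfl, by simp⟩
  smul_mem' := by
    rintro c a ⟨ha, ha', ha''⟩
    refine ⟨fun f hf => (Zs _).smul_mem c (ha f hf), fun f hf => ?_, ?_⟩
    · rw [Pi.smul_apply, ha' f hf, smul_zero]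
    · simp only [Pi.smul_apply, ← Finset.smul_sum, ha'', smul_zero]

theorem mem_Rel {F : Finset ℕ} {W : ℕ} {z : ℕ → ℝ} : z ∈ Rel F W ↔
    (∀ f ∈ F, z f ∈ Zs (W + f)) ∧ (∀ f, f ∉ F → z f = 0) ∧ ∑ f ∈ F, z f = 0 := Iff.rfl

instance finite_Rel (F : Finset ℕ) (W : ℕ) : FiniteDimensional ℚ (Rel F W) := by
  let T : Rel F W →ₗ[ℚ] ((f : F) → Zs (W + f)) :=
    { toFun := fun z f => ⟨z.1 f, z.2.1 f f.2⟩
      map_add' := fun _ _ => rfl
      map_smul' := fun _ _ => rfl }
  refine Module.Finite.of_injective T ?_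
  intro a b hab
  apply Subtype.ext
  funext f
  by_cases hf : f ∈ F
  · have h1 := congrFun hab ⟨f, hf⟩
    exact congrArg Subtype.val h1
  · rw [a.2.2.1 f hf, b.2.2.1 f hf]

theorem not_direct {F : Finset ℕ} {W : ℕ} {z : ℕ → ℝ} (hz : z ∈ Rel F W) (h0 : z ≠ 0) :
    ¬ Pool.Agent.Y129.MZ.Direct (W + F.sup id) := by
  intro h
  obtain ⟨h1, h2, h3⟩ := mem_Rel.1 hz
  have key := h (fun j => if W ≤ j then z (j - W) else 0) ?_ ?_
  · apply h0
    funext f
    by_cases hf : f ∈ F
    · have hle : f ≤ F.sup id := Finset.le_sup (f := id) hf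
      have h4 := key (W + f) (by omega)
      simp only [Nat.le_add_right, if_true, Nat.add_sub_cancel_left] at h4
      exact h4
    · exact h2 f hf
  · intro j _
    by_cases hj : W ≤ j
    · simp only [hj, if_true]
      by_cases hf : j - W ∈ F
      · have h5 := h1 _ hf
        rwa [Nat.add_sub_cancel' hj] at h5
      · rw [h2 _ hf]; exact (Zs j).zero_mem
    · simp only [hj, if_false]; exact (Zs j).zero_mem
  · rw [show W + F.sup id + 1 = W + (F.sup id + 1) by omega, Finset.sum_range_add]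
    have e1 : ∑ x ∈ Finset.range W, (if W ≤ x then z (x - W) else 0) = 0 :=
      Finset.sum_eq_zero fun x hx => by
        rw [if_neg]
        have := Finset.mem_range.1 hx
        omega
    have e2 : ∑ x ∈ Finset.range (F.sup id + 1), (if W ≤ W + x then z (W + x - W) else 0) =
        ∑ x ∈ Finset.range (F.sup id + 1), z x :=
      Finset.sum_congr rfl fun x _ => by
        rw [if_pos (Nat.le_add_right _ _), Nat.add_sub_cancel_left]
    have e3 : ∑ f ∈ F, z f = ∑ x ∈ Finset.range (F.sup id + 1), z x := by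
      refine Finset.sum_subset (fun f hf => ?_) fun x _ hx => h2 x hx
      have hle : f ≤ F.sup id := Finset.le_sup (f := id) hf
      exact Finset.mem_range.2 (by omega)
    rw [e1, e2, ← e3, h3, add_zero]

/-- linear growth if the sum of the weight spaces is not direct -/
theorem growth {p : ℕ} (h : ¬ Pool.Agent.Y129.MZ.Direct p) :
    ∃ c : ℝ, 0 < c ∧ ∀ n : ℕ, 2 ≤ n → c * n ≤ D n := by
  obtain ⟨c, hc, -, h1⟩ := nd_growth h pi_alg_indep (fun _ => ⟨2, pi_sq_mem⟩)
  exact ⟨c, hc, fun n hn => by simpa using h1 n hn⟩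

theorem rel_ge {F : Finset ℕ} {W W' : ℕ} {z : ℕ → ℝ} (hz : z ∈ Rel F W) (h0 : z ≠ 0)
    (hW : W ≤ W') : D (W' - W) ≤ finrank ℚ (Rel F W') := by
  obtain ⟨h1, h2, h3⟩ := mem_Rel.1 hz
  let T : Zs (W' - W) →ₗ[ℚ] Rel F W' :=
    { toFun := fun y => ⟨fun f => (y : ℝ) * z f, by
        refine mem_Rel.2 ⟨fun f hf => ?_, fun f hf => ?_, ?_⟩
        · have h4 := mul_mem (W' - W) (W + f) _ _ y.2 (h1 f hf)
          rwa [show W' - W + (W + f) = W' + f by omega] at h4
        · show (y : ℝ) * z f = 0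
          rw [h2 f hf, mul_zero]
        · rw [← Finset.mul_sum, h3, mul_zero]⟩
      map_add' := fun a b => by
        apply Subtype.ext
        funext f
        exact add_mul _ _ _
      map_smul' := fun c a => by
        apply Subtype.ext
        funext f
        exact smul_mul_assoc _ _ _ }
  refine LinearMap.finrank_le_finrank_of_injective (f := T) ?_
  intro a b hab
  obtain ⟨f, hf⟩ := Function.ne_iff.1 h0
  have h5 : (a : ℝ) * z f = (b : ℝ) * z f := congrFun (congrArg Subtype.val hab) f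
  exact Subtype.ext (mul_right_cancel₀ hf h5)

/-- the zero-one law for the relations along a finite set of weights -/
theorem zero_one_law (F : Finset ℕ) : (∀ W, Rel F W = ⊥) ∨
    ∃ c : ℝ, 0 < c ∧ ∃ W₀ : ℕ, ∀ W : ℕ, W₀ ≤ W → c * W ≤ finrank ℚ (Rel F W) := by
  by_cases h : ∀ W, Rel F W = ⊥
  · exact Or.inl h
  right
  push Not at h
  obtain ⟨W₁, h⟩ := h
  obtain ⟨z, hz, h0⟩ := (Submodule.ne_bot_iff _).1 h
  obtain ⟨c, hc, hg⟩ := growth (not_direct hz h0)
  refine ⟨c / 2, by positivity, 2 * W₁ + 2, fun W hW => ?_⟩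
  have h1 := rel_ge hz h0 (show W₁ ≤ W by omega)
  have h2 := hg (W - W₁) (by omega)
  have h3 : ((W - W₁ : ℕ) : ℝ) = (W : ℝ) - W₁ := Nat.cast_sub (by omega)
  have h4 : (2 : ℝ) * W₁ + 2 ≤ W := by exact_mod_cast hW
  have h5 : ((D (W - W₁) : ℕ) : ℝ) ≤ (finrank ℚ (Rel F W) : ℕ) := by exact_mod_cast h1
  rw [h3] at h2
  nlinarith

/-- `d` is a difference of two weights of a nonzero number -/
def Diff (d : ℕ) : Prop := ∃ W, ∃ x ∈ Zs W, x ∈ Zs (W + d) ∧ x ≠ 0

theorem diff_zero : Diff 0 := ⟨0, 1, one_mem, one_mem, one_ne_zero⟩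

theorem diff_add {d e : ℕ} (hd : Diff d) (he : Diff e) : Diff (d + e) := by
  obtain ⟨W, x, h1, h2, h3⟩ := hd
  obtain ⟨V, y, g1, g2, g3⟩ := he
  refine ⟨W + V, x * y, mul_mem _ _ _ _ h1 g1, ?_, mul_ne_zero h3 g3⟩
  have h4 := mul_mem _ _ _ _ h2 g2
  rwa [show W + d + (V + e) = W + V + (d + e) by omega] at h4

theorem diff_sub {d e : ℕ} (hle : e ≤ d) (hd : Diff d) (he : Diff e) : Diff (d - e) := by
  obtain ⟨W, x, h1, h2, h3⟩ := hd
  obtain ⟨V, y, g1, g2, g3⟩ := he
  refine ⟨W + (V + e), x * y, mul_mem _ _ _ _ h1 g2, ?_, mul_ne_zero h3 g3⟩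
  have h4 := mul_mem _ _ _ _ h2 g1
  rwa [show W + d + V = W + (V + e) + (d - e) by omega] at h4

theorem exists_gen : ∃ g : ℕ, ∀ d, Diff d ↔ g ∣ d := by
  classical
  by_cases h : ∃ d, 0 < d ∧ Diff d
  · refine ⟨Nat.find h, fun d => ⟨fun hd => ?_, fun hd => ?_⟩⟩
    · induction d using Nat.strong_induction_on with
      | _ d ih =>
        rcases Nat.lt_or_ge d (Nat.find h) with hlt | hge
        · have h1 := Nat.find_min h hlt
          push Not at h1
          rcases Nat.eq_zero_or_pos d with h2 | h2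
          · rw [h2]; exact dvd_zero _
          · exact absurd hd (h1 h2)
        · have hpos := (Nat.find_spec h).1
          have h2 := ih (d - Nat.find h) (by omega) (diff_sub hge hd (Nat.find_spec h).2)
          have h3 := Nat.dvd_add h2 (dvd_refl (Nat.find h))
          rwa [Nat.sub_add_cancel hge] at h3
    · obtain ⟨k, rfl⟩ := hd
      induction k with
      | zero => exact diff_zero
      | succ k ih =>
        rw [Nat.mul_succ]
        exact diff_add ih (Nat.find_spec h).2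
  · refine ⟨0, fun d => ⟨fun hd => ?_, fun hd => ?_⟩⟩
    · rcases Nat.eq_zero_or_pos d with h2 | h2
      · rw [h2]
      · exact absurd ⟨d, h2, hd⟩ h
    · rw [Nat.eq_zero_of_zero_dvd hd]; exact diff_zero

/-- the numbers of the `L + 1` weights `W, W + g, ..., W + L g` -/
noncomputable def Many (g L W : ℕ) : Submodule ℚ ℝ := ⨅ j ∈ Finset.range (L + 1), Zs (W + j * g)

theorem mem_Many {g L W : ℕ} {x : ℝ} : x ∈ Many g L W ↔ ∀ j ≤ L, x ∈ Zs (W + j * g) := by
  simp only [Many, Submodule.mem_iInf, Finset.mem_range]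
  exact ⟨fun h j hj => h j (by omega), fun h j hj => h j (by omega)⟩

theorem many_le (g L W : ℕ) : Many g L W ≤ Zs W := fun x hx => by
  have h := mem_Many.1 hx 0 (Nat.zero_le _)
  simpa using h

instance finite_Many (g L W : ℕ) : FiniteDimensional ℚ (Many g L W) :=
  Submodule.finiteDimensional_of_le (many_le g L W)

theorem many_ge {g L W W' : ℕ} {x : ℝ} (hx : x ∈ Many g L W) (h0 : x ≠ 0) (hW : W ≤ W') :
    D (W' - W) ≤ finrank ℚ (Many g L W') := by
  have hmap : ∀ y ∈ Zs (W' - W), LinearMap.mulLeft ℚ x y ∈ Many g L W' := fun y hy => by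
    refine mem_Many.2 fun j hj => ?_
    have h1 := mul_mem (W + j * g) (W' - W) x y (mem_Many.1 hx j hj) hy
    rwa [show W + j * g + (W' - W) = W' + j * g by omega] at h1
  refine LinearMap.finrank_le_finrank_of_injective
    (f := (LinearMap.mulLeft ℚ x).restrict hmap) ?_
  intro a b hab
  apply Subtype.ext
  have h1 : x * (a : ℝ) = x * (b : ℝ) := congrArg Subtype.val hab
  exact mul_left_cancel₀ h0 h1

theorem exists_many {g : ℕ} (hg : Diff g) (L : ℕ) : ∃ W, ∃ x ∈ Many g L W, x ≠ 0 := by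
  obtain ⟨W, x, h1, h2, h3⟩ := hg
  refine ⟨W * L, x ^ L, mem_Many.2 fun j hj => ?_, pow_ne_zero _ h3⟩
  have h4 := mul_mem _ _ _ _ (pow_mem W x h1 (L - j)) (pow_mem (W + g) x h2 j)
  rw [← pow_add, Nat.sub_add_cancel hj] at h4
  have e : W * (L - j) + (W + g) * j = W * L + j * g := by
    obtain ⟨i, rfl⟩ := Nat.exists_eq_add_of_le hj
    rw [Nat.add_sub_cancel_left]
    ring
  rwa [e] at h4

theorem not_direct_of_diff {d : ℕ} (hd : 1 ≤ d) (h : Diff d) :
    ∃ p, ¬ Pool.Agent.Y129.MZ.Direct p := by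
  obtain ⟨W, x, h1, h2, h3⟩ := h
  refine ⟨W + d, fun hD => ?_⟩
  have key := hD (fun j => if j = W then x else if j = W + d then -x else 0) ?_ ?_ W (by omega)
  · simp only [if_true] at key
    exact h3 key
  · intro j _
    by_cases hj : j = W
    · simp only [hj, if_true]; exact h1
    · by_cases hj' : j = W + d
      · simp only [hj', show ¬ (W + d = W) by omega, if_true, if_false]
        exact (Zs _).neg_mem h2
      · simp only [hj, hj', if_false]; exact (Zs _).zero_mem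
  · rw [Finset.sum_eq_add_of_mem W (W + d) (Finset.mem_range.2 (by omega))
      (Finset.mem_range.2 (by omega)) (by omega)]
    · simp only [if_true, show ¬ (W + d = W) by omega, if_false]
      exact add_neg_cancel x
    · intro j _ hj
      simp only [hj.1, hj.2, if_false]

/-- numbers of many weights -/
theorem many_growth {g : ℕ} (hg1 : 1 ≤ g) (hg : Diff g) (L : ℕ) :
    ∃ c : ℝ, 0 < c ∧ ∃ W₀ : ℕ, ∀ W : ℕ, W₀ ≤ W → c * W ≤ finrank ℚ (Many g L W) := by
  obtain ⟨p, hp⟩ := not_direct_of_diff hg1 hg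
  obtain ⟨c, hc, hgr⟩ := growth hp
  obtain ⟨W₁, x, hx, h0⟩ := exists_many hg L
  refine ⟨c / 2, by positivity, 2 * W₁ + 2, fun W hW => ?_⟩
  have h1 := many_ge hx h0 (show W₁ ≤ W by omega)
  have h2 := hgr (W - W₁) (by omega)
  have h3 : ((W - W₁ : ℕ) : ℝ) = (W : ℝ) - W₁ := Nat.cast_sub (by omega)
  have h4 : (2 : ℝ) * W₁ + 2 ≤ W := by exact_mod_cast hW
  have h5 : ((D (W - W₁) : ℕ) : ℝ) ≤ (finrank ℚ (Many g L W) : ℕ) := by exact_mod_cast h1
  rw [h3] at h2
  nlinarith

end Pool.Agent.T2H06.TW
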